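import Pool.Agent.Helper47.EP.Goals

/-!
Project EP (MP_5b9a11_al), helper19: packet EP-RHO.
-/

set_option autoImplicit false

namespace Pool.Agent.Helper19.EP.RHO

open Pool.Agent.Helper47.EP MonoidAlgebra Finset

noncomputable section

variable {p : ℕ} {T : Dat p} {A : Type} [Fintype A] [DecidableEq A] {R : Type} [CommRing R]

/-- the coefficients of `rho`. -/
def kp (C : Chr T R) (j : A → ZMod p) (v : A → T.K) : R := ∏ a, kap C (j a) (v a)

theorem rho_eq (C : Chr T R) (j : A → ZMod p) : rho C j = ∑ v : A → T.K, kp C j v • ev C v := rfl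

theorem kp_zero (C : Chr T R) (v : A → T.K) : kp C (0 : A → ZMod p) v = if v = 0 then 1 else 0 := by
  unfold kp kap
  by_cases h : v = 0
  · subst h
    simp
  · rw [if_neg h]
    obtain ⟨a, ha⟩ : ∃ a, v a ≠ 0 := by
      by_contra hc
      push Not at hc
      exact h (funext hc)
    refine prod_eq_zero (mem_univ a) ?_
    simp [ha]

/-- sum over pairs, reindexed. -/
theorem sum_pair_reindex {M : Type} [AddCommMonoid M] (f : (A → T.K) → (A → T.K) → M) :
    ∑ v, ∑ v', f v v' = ∑ s, ∑ v, f v (s - v) := by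
  rw [sum_comm (f := fun s v => f v (s - v))]
  refine sum_congr rfl fun v _ => ?_
  exact ((Equiv.subRight v).sum_comp (fun v' => f v v')).symm

theorem psi_Om (C : Chr T R) (v v' : A → T.K) : C.ψ (Om v v') = ∏ a, C.ψ (T.w (v a) (v' a)) := by
  classical
  unfold Om
  have h : ∀ s : Finset A, C.ψ (∑ a ∈ s, T.w (v a) (v' a)) = ∏ a ∈ s, C.ψ (T.w (v a) (v' a)) := by
    intro s
    induction s using Finset.induction_on with
    | empty => rw [sum_empty, prod_empty, AddChar.map_zero_eq_one]
    | insert a s ha ih => rw [sum_insert ha, prod_insert ha, AddChar.map_add_eq_mul, ih]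
  exact h univ

section

variable [Fact p.Prime]

theorem kp_mul (h1 : S_KAP) (C : Chr T R) (j k : A → ZMod p) (s : A → T.K) :
    ∑ v : A → T.K, kp C j v * kp C k (s - v) * C.ψ (Om v (s - v)) = kp C (j + k) s := by
  have h2 := (h1 p T R C).1
  have h3 : kp C (j + k) s =
      ∏ a, ∑ y, kap C (j a) y * kap C (k a) (s a - y) * C.ψ (T.w y (s a - y)) := by
    unfold kp
    exact prod_congr rfl fun a _ => (h2 (j a) (k a) (s a)).symm
  rw [h3, prod_univ_sum, Fintype.piFinset_univ]
  refine sum_congr rfl fun v _ => ?_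
  rw [psi_Om]
  unfold kp
  rw [← prod_mul_distrib, ← prod_mul_distrib]
  rfl

theorem kp_conj (h1 : S_KAP) (C : Chr T R) (j : A → ZMod p) (s v : A → T.K) :
    kp C j (s - fun a => T.t (j a) (v a)) *
        C.ψ (Om (fun a => T.t (j a) (v a)) (s - fun a => T.t (j a) (v a))) =
      kp C j (s - v) * C.ψ (Om (s - v) v) := by
  have h2 := (h1 p T R C).2.1
  rw [psi_Om, psi_Om]
  unfold kp
  rw [← prod_mul_distrib, ← prod_mul_distrib]
  exact prod_congr rfl fun a _ => h2 (j a) (s a) (v a)

theorem kp_t (h1 : S_KAP) (C : Chr T R) (j k : A → ZMod p) (v : A → T.K) :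
    kp C j (fun a => T.t (k a) (v a)) = kp C j v := by
  have h2 := (h1 p T R C).2.2.1
  unfold kp
  exact prod_congr rfl fun a _ => h2 (j a) (k a) (v a)

theorem kp_at_zero (h1 : S_KAP) (C : Chr T R) (j : A → ZMod p) :
    kp C j 0 = (-C.il) ^ (univ.filter fun a => j a ≠ 0).card := by
  have h2 := (h1 p T R C).2.2.2
  unfold kp
  have h3 : ∀ a ∈ (univ : Finset A), kap C (j a) ((0 : A → T.K) a) =
      if j a ≠ 0 then -C.il else 1 := by
    intro a _
    by_cases h : j a = 0
    · rw [if_neg (by simpa using h), h, Pi.zero_apply]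
      unfold kap
      simp
    · rw [if_pos h, Pi.zero_apply]
      exact h2 _ h
  rw [prod_congr rfl h3, prod_ite, prod_const, prod_const_one, mul_one]

theorem ev_mul_rho (h1 : S_KAP) (h2 : S_HB) (C : Chr T R) (j : A → ZMod p) (v : A → T.K) :
    ev C (fun a => T.t (j a) (v a)) * rho C j = rho C j * ev C v := by
  have hev := (h2 p T A R C).2.2.2.1
  rw [rho_eq, mul_sum, sum_mul]
  have hL : ∀ u ∈ (univ : Finset (A → T.K)),
      ev C (fun a => T.t (j a) (v a)) * (kp C j u • ev C u) =
        (kp C j u * C.ψ (Om (fun a => T.t (j a) (v a)) u)) •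
          ev C ((fun a => T.t (j a) (v a)) + u) := by
    intro u _
    rw [mul_smul_comm, hev, smul_smul]
  have hR : ∀ u ∈ (univ : Finset (A → T.K)), (kp C j u • ev C u) * ev C v =
        (kp C j u * C.ψ (Om u v)) • ev C (u + v) := by
    intro u _
    rw [smul_mul_assoc, hev, smul_smul]
  rw [sum_congr rfl hL, sum_congr rfl hR]
  rw [← (Equiv.subRight (fun a => T.t (j a) (v a))).sum_comp
    (fun u => (kp C j u * C.ψ (Om (fun a => T.t (j a) (v a)) u)) •
      ev C ((fun a => T.t (j a) (v a)) + u)),
    ← (Equiv.subRight v).sum_comp (fun u => (kp C j u * C.ψ (Om u v)) • ev C (u + v))]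
  refine sum_congr rfl fun s _ => ?_
  rw [Equiv.subRight_apply, Equiv.subRight_apply, kp_conj h1, add_sub_cancel, sub_add_cancel]

theorem coeff_rho (h2 : S_HB) (C : Chr T R) (j : A → ZMod p) (g : Hs T A) :
    (rho C j).coeff g = kp C j g.v * (C.il * C.ψ (-g.z)) := by
  have hc := (h2 p T A R C).2.2.2.2.1
  rw [rho_eq, coeff_sum, Finsupp.finsetSum_apply]
  rw [sum_eq_single g.v]
  · rw [coeff_smul_apply, hc, if_pos rfl, smul_eq_mul]
  · intro v _ hv
    rw [coeff_smul_apply, hc, if_neg (Ne.symm hv), smul_zero]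
  · intro h
    exact absurd (mem_univ _) h

end

theorem kap_map {S : Type} [CommRing S] (C : Chr T R) (f : R →+* S) (j : ZMod p) (y : T.K) :
    kap (C.map f) j y = f (kap C j y) := by
  unfold kap
  by_cases h : j = 0
  · simp only [if_pos h]
    by_cases h' : y = 0
    · simp only [if_pos h', map_one]
    · simp only [if_neg h', map_zero]
  · simp only [if_neg h]
    rw [map_mul f, map_neg f]
    rfl

theorem t (h1 : S_KAP) (h2 : S_HB) : S_RHO := by
  intro p _ T A _ _ R _ C
  obtain ⟨hee, hcen, hsin, hev, hco, hrep, hmap⟩ := h2 p T A R C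
  have hE : ∀ v : A → T.K, ee C A * ev C v = ev C v := by
    intro v
    unfold ev
    rw [← mul_assoc, hcen, mul_assoc, hee]
  have hA : ∀ j : A → ZMod p, ee C A * rho C j = rho C j := by
    intro j
    rw [rho_eq, mul_sum]
    refine sum_congr rfl fun v _ => ?_
    rw [mul_smul_comm, hE]
  have hB : rho C (0 : A → ZMod p) = ee C A := by
    rw [rho_eq, sum_eq_single (0 : A → T.K)]
    · rw [kp_zero, if_pos rfl, one_smul]
      unfold ev
      have : (⟨0, 0⟩ : Hs T A) = 1 := rfl
      rw [this, ← one_def, one_mul]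
    · intro v _ hv
      rw [kp_zero, if_neg hv, zero_smul]
    · intro h
      exact absurd (mem_univ _) h
  refine ⟨hA, hB, ?_, ?_, ?_, ?_, ?_, ?_⟩
  · intro j k
    rw [rho_eq C j, rho_eq C k, sum_mul]
    have h3 : ∀ v ∈ (univ : Finset (A → T.K)),
        (kp C j v • ev C v) * ∑ v', kp C k v' • ev C v' =
          ∑ v', (kp C j v * kp C k v' * C.ψ (Om v v')) • ev C (v + v') := by
      intro v _
      rw [mul_sum]
      refine sum_congr rfl fun v' _ => ?_
      rw [smul_mul_assoc, mul_smul_comm, hev, smul_smul, smul_smul, mul_assoc]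
    rw [sum_congr rfl h3, sum_pair_reindex
      (fun v v' => (kp C j v * kp C k v' * C.ψ (Om v v')) • ev C (v + v')), rho_eq C (j + k)]
    refine sum_congr rfl fun s _ => ?_
    rw [← kp_mul h1, sum_smul]
    refine sum_congr rfl fun v _ => ?_
    rw [add_sub_cancel]
  · intro j g
    have e1 : single (ta j g) (1 : R) * rho C j =
        C.ψ g.z • (ev C (fun a => T.t (j a) (g.v a)) * rho C j) := by
      rw [← smul_mul_assoc]
      have := hsin (ta j g)
      rw [ta_z] at this
      have h4 : (ta j g).v = fun a => T.t (j a) (g.v a) := rfl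
      rw [h4] at this
      rw [← this, mul_assoc, hA]
    have e2 : rho C j * single g (1 : R) = C.ψ g.z • (rho C j * ev C g.v) := by
      rw [← mul_smul_comm, ← hsin g, ← hcen, ← mul_assoc, ← hcen, hA]
    rw [e1, e2, ev_mul_rho h1 h2]
  · intro j y hy hsupp
    have e1 : (rho C j * y).coeff 1 =
        ∑ w : A → T.K, kp C j (-w) * y.coeff ⟨w, 0⟩ := by
      conv_lhs => rw [hrep y hy, mul_sum, coeff_sum, Finsupp.finsetSum_apply]
      refine sum_congr rfl fun w _ => ?_
      rw [rho_eq, sum_mul, coeff_sum, Finsupp.finsetSum_apply, sum_eq_single (-w)]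
      · rw [smul_mul_assoc, mul_smul_comm, hev, smul_smul, smul_smul, coeff_smul_apply, hco]
        rw [neg_add_cancel, if_pos (Hs.one_v), Om_neg_left, Om_self, neg_zero, Hs.one_z, neg_zero,
          AddChar.map_zero_eq_one, mul_one, mul_one, smul_eq_mul]
        calc kp C j (-w) * ((T.l : R) * y.coeff ⟨w, 0⟩) * C.il
            = kp C j (-w) * y.coeff ⟨w, 0⟩ * (C.il * (T.l : R)) := by ring
          _ = _ := by rw [C.il_mul, mul_one]
      · intro v _ hv
        rw [smul_mul_assoc, mul_smul_comm, hev, smul_smul, smul_smul, coeff_smul_apply, hco,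
          if_neg, smul_zero]
        intro h
        rw [Hs.one_v] at h
        exact hv (eq_neg_of_add_eq_zero_left h.symm)
      · intro h
        exact absurd (mem_univ _) h
    rw [e1, sum_eq_single (0 : A → T.K)]
    · rw [neg_zero, kp_at_zero h1]
      rfl
    · intro w _ hw
      obtain ⟨a, ha⟩ : ∃ a, w a ≠ 0 := by
        by_contra hc
        push Not at hc
        exact hw (funext hc)
      by_cases hj : j a = 0
      · have : kp C j (-w) = 0 := by
          unfold kp
          refine prod_eq_zero (mem_univ a) ?_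
          unfold kap
          rw [if_pos hj, if_neg]
          rw [Pi.neg_apply]
          exact neg_ne_zero.2 ha
        rw [this, zero_mul]
      · have : y.coeff (⟨w, 0⟩ : Hs T A) = 0 := by
          by_contra hc
          exact ha (hsupp _ hc a hj)
        rw [this, mul_zero]
    · intro h
      exact absurd (mem_univ _) h
  · intro j k g
    rw [coeff_rho h2, coeff_rho h2, ta_z]
    have h4 : (ta k g).v = fun a => T.t (k a) (g.v a) := rfl
    rw [h4, kp_t h1]
  · intro j g hg a hj
    by_contra hc
    apply hg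
    rw [coeff_rho h2]
    have : kp C j g.v = 0 := by
      unfold kp
      refine prod_eq_zero (mem_univ a) ?_
      unfold kap
      rw [if_pos hj, if_neg hc]
    rw [this, zero_mul]
  · intro S _ f j
    rw [rho_eq, rho_eq, map_sum]
    refine sum_congr rfl fun v _ => ?_
    have h3 : mapRingHom (Hs T A) f (kp C j v • ev C v) =
        f (kp C j v) • mapRingHom (Hs T A) f (ev C v) := by
      refine MonoidAlgebra.ext (Finsupp.ext fun g => ?_)
      rw [coeff_mapRingHom, coeff_smul_apply, coeff_smul_apply, coeff_mapRingHom, smul_eq_mul,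
        smul_eq_mul, map_mul]
    rw [h3, (hmap S f).2]
    congr 1
    unfold kp
    rw [map_prod]
    exact prod_congr rfl fun a _ => (kap_map C f _ _).symm

end

end Pool.Agent.Helper19.EP.RHO
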